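import Mathlib
import Pool.Agent.Helper91.SR.Final

/-!
Upper bound `n^(d + o(1))` for the size-Ramsey number of the `d`-dimensional grid graph.
-/

set_option autoImplicit false

open Pool.Agent.Helper47.SizeRamsey

namespace Pool.Agent.Kept.MP_971383_co.AlmostLinearUpperBound

/-- For every `d ≥ 1` and `ε > 0` there is a constant `C` such that for every `n ≥ 1` some finite
graph `G` with at most `C n^(d + ε)` edges satisfies `G → G_n^d`. -/
theorem result (d : ℕ) (hd : 1 ≤ d) (ε : ℝ) (hε : 0 < ε) :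
    ∃ C : ℝ, ∀ n : ℕ, 1 ≤ n → ∃ (V : Type) (_ : Fintype V) (G : SimpleGraph V),
      Arrows G (gridGraph d n) ∧
        (G.edgeSet.ncard : ℝ) ≤ C * (n : ℝ) ^ ((d : ℝ) + ε) :=
  Pool.Agent.Helper91.SR.upper_bound d hd ε hε

end Pool.Agent.Kept.MP_971383_co.AlmostLinearUpperBound
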